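import Pool.Agent.Lib.MP_0e3b4a_gt.Iface2

/-! # POLY: an open condition on `Ad` holding at one point holds almost everywhere -/

set_option autoImplicit false

namespace Pool.Agent.CutLoci.H92

open MeasureTheory Set Filter Topology

/-- A real analytic function on the line which is not zero at `0` is almost nowhere zero. -/
theorem ae_ne_of_analytic {d : ℝ → ℝ} (hd : AnalyticOnNhd ℝ d univ) (h0 : d 0 ≠ 0) :
    ∀ᵐ t : ℝ, d t ≠ 0 := by
  have h1 : d ⁻¹' {0}ᶜ ∈ codiscrete ℝ := hd.preimage_zero_mem_codiscrete h0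
  have h2 := ae_restrict_le_codiscreteWithin (μ := (volume : Measure ℝ)) (U := univ)
    MeasurableSet.univ
  rw [Measure.restrict_univ] at h2
  exact h2 h1

variable {g : Type} [NormedAddCommGroup g] [NormedSpace ℝ g] [FiniteDimensional ℝ g]

/-- Reduction to the lines through one point. -/
theorem ae_ne_of_lines [MeasurableSpace g] [BorelSpace g] (μ : Measure g) [μ.IsAddHaarMeasure]
    (F : g → ℝ) (hc : Continuous F) (x0 : g) (h0 : F x0 ≠ 0)
    (ha : ∀ y : g, AnalyticOnNhd ℝ (fun t : ℝ => F (x0 + t • y)) univ) :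
    ∀ᵐ x ∂μ, F x ≠ 0 := by
  have h1 : ∀ᵐ y ∂μ, ∀ᵐ t : ℝ, F (x0 + t • y) ≠ 0 := by
    refine Eventually.of_forall fun y => ?_
    refine ae_ne_of_analytic (ha y) ?_
    simpa using h0
  have hm : MeasurableSet {p : g × ℝ | F (x0 + p.2 • p.1) ≠ 0} := by
    refine IsOpen.measurableSet ?_
    exact isOpen_ne_fun (hc.comp (continuous_const.add (continuous_snd.smul continuous_fst)))
      continuous_const
  have h2 := (Measure.ae_ae_comm (μ := μ) (ν := (volume : Measure ℝ))
    (p := fun y t => F (x0 + t • y) ≠ 0) hm).1 h1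
  have h3 : ∀ᵐ t : ℝ, t ≠ 0 := by
    rw [ae_iff]
    simp
  obtain ⟨t, ht, ht0⟩ := (h2.and h3).exists
  rw [ae_iff] at ht ⊢
  have e : {y : g | ¬ F (x0 + t • y) ≠ 0} =
      (t • ·) ⁻¹' ((fun z => x0 + z) ⁻¹' {x | ¬ F x ≠ 0}) := rfl
  rw [e, Measure.addHaar_preimage_smul μ ht0, measure_preimage_add] at ht
  rcases mul_eq_zero.1 ht with h | h
  · exfalso
    rw [ENNReal.ofReal_eq_zero, abs_nonpos_iff] at h
    have : (t ^ Module.finrank ℝ g)⁻¹ ≠ 0 := inv_ne_zero (pow_ne_zero _ ht0)
    exact this h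
  · exact h

section

variable {r : ℕ} (C : Carnot g r)

theorem lin_pt_apply (x v : g) :
    Carnot.lin (C.pt x) v = (C.pt x (v, 0)).1 := by
  simp [Carnot.lin]

/-- One entry of the matrix. -/
noncomputable def entry {n : ℕ} (b : Module.Basis (Fin n) ℝ g) (P Q : g →ₗ[ℝ] g) (x : g)
    (i j : Fin n) : ℝ :=
  b.coord j (P (b i) + Carnot.lin (C.pt x) (Q (b i)))

theorem entry_cont {n : ℕ} (b : Module.Basis (Fin n) ℝ g) (P Q : g →ₗ[ℝ] g) (i j : Fin n) :
    Continuous fun x => entry C b P Q x i j := by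
  have : CompleteSpace g := FiniteDimensional.complete ℝ g
  have h1 : Continuous fun x : g => C.pt x := by
    unfold Carnot.pt
    have h0 : Continuous (NormedSpace.exp : Carnot.Aff g → Carnot.Aff g) :=
      continuous_iff_continuousAt.2 fun a => (NormedSpace.exp_analytic (𝕂 := ℝ) a).continuousAt
    exact h0.comp C.rep.continuous
  have h2 : Continuous fun x : g => Carnot.lin (C.pt x) (Q (b i)) := by
    simp only [lin_pt_apply]
    exact continuous_fst.comp (h1.clm_apply continuous_const)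
  unfold entry
  exact (LinearMap.continuous_of_finiteDimensional (b.coord j)).comp (continuous_const.add h2)

theorem entry_analytic {n : ℕ} (b : Module.Basis (Fin n) ℝ g) (P Q : g →ₗ[ℝ] g) (i j : Fin n)
    (x0 y : g) (t : ℝ) : AnalyticAt ℝ (fun t : ℝ => entry C b P Q (x0 + t • y) i j) t := by
  have : CompleteSpace g := FiniteDimensional.complete ℝ g
  have h0 : AnalyticAt ℝ (fun t : ℝ => x0 + t • y) t :=
    analyticAt_const.add (analyticAt_id.smul analyticAt_const)
  have h1 : AnalyticAt ℝ (fun t : ℝ => C.rep (x0 + t • y)) t :=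
    (C.rep.analyticAt _).comp h0
  have h2 : AnalyticAt ℝ (fun t : ℝ => NormedSpace.exp (C.rep (x0 + t • y))) t :=
    AnalyticAt.comp (g := NormedSpace.exp) (f := fun t : ℝ => C.rep (x0 + t • y)) (x := t)
      (NormedSpace.exp_analytic (𝕂 := ℝ) (C.rep (x0 + t • y))) h1
  let Λ : Carnot.Aff g →L[ℝ] ℝ :=
    (LinearMap.toContinuousLinearMap (b.coord j)).comp ((ContinuousLinearMap.fst ℝ g ℝ).comp
      (ContinuousLinearMap.apply ℝ (g × ℝ) ((Q (b i), (0 : ℝ)) : g × ℝ)))
  have h3 : AnalyticAt ℝ (fun t : ℝ => b.coord j (P (b i)) +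
      Λ (NormedSpace.exp (C.rep (x0 + t • y)))) t :=
    analyticAt_const.add ((Λ.analyticAt _).comp h2)
  have h4 : (fun t : ℝ => entry C b P Q (x0 + t • y) i j) = fun t : ℝ => b.coord j (P (b i)) +
      Λ (NormedSpace.exp (C.rep (x0 + t • y))) := by
    funext t
    unfold entry
    rw [map_add, lin_pt_apply]
    rfl
  rw [h4]
  exact h3

end

/-- POLY. -/
theorem poly (g : Type) [NormedAddCommGroup g] [NormedSpace ℝ g] [FiniteDimensional ℝ g] (r : ℕ) :
    PolyStatement g r := by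
  intro _ _ μ _ C U hx
  obtain ⟨x0, hx0⟩ := hx
  let T : g → (U × U) →ₗ[ℝ] g := fun x =>
    U.subtype.coprod ((Carnot.lin (C.pt x)).toLinearMap ∘ₗ U.subtype)
  have hT : ∀ x, LinearMap.range (T x) = U ⊔ U.map (Carnot.lin (C.pt x)).toLinearMap := by
    intro x
    simp only [T]
    rw [LinearMap.range_coprod, LinearMap.range_comp, Submodule.range_subtype]
  have hs : LinearMap.range (T x0) = ⊤ := by rw [hT, hx0]
  obtain ⟨M, hM⟩ := (T x0).exists_rightInverse_of_surjective hs
  let P : g →ₗ[ℝ] g := U.subtype ∘ₗ (LinearMap.fst ℝ U U) ∘ₗ M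
  let Q : g →ₗ[ℝ] g := U.subtype ∘ₗ (LinearMap.snd ℝ U U) ∘ₗ M
  let b := Module.finBasis ℝ g
  let F : g → ℝ := fun x => Matrix.det (Matrix.of fun j i => entry C b P Q x i j)
  have hF : ∀ x, F x = LinearMap.det (T x ∘ₗ M) := by
    intro x
    rw [← LinearMap.det_toMatrix b]
    simp only [F]
    congr 1
    ext j i
    rw [LinearMap.toMatrix_apply]
    rfl
  have hF0 : F x0 ≠ 0 := by
    rw [hF, hM, LinearMap.det_id]
    exact one_ne_zero
  have hc : Continuous F := by
    refine Continuous.matrix_det ?_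
    refine continuous_matrix fun j i => ?_
    exact entry_cont C b P Q i j
  have ha : ∀ y : g, AnalyticOnNhd ℝ (fun t : ℝ => F (x0 + t • y)) univ := by
    intro y t _
    simp only [F, Matrix.det_apply, Matrix.of_apply]
    refine Finset.analyticAt_fun_sum _ fun σ _ => ?_
    refine AnalyticAt.const_smul ?_
    refine Finset.analyticAt_fun_prod _ fun i _ => ?_
    exact entry_analytic C b P Q i (σ i) x0 y t
  have key := ae_ne_of_lines μ F hc x0 hF0 ha
  filter_upwards [key] with x hx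
  rw [← hT, LinearMap.range_eq_top]
  rw [hF] at hx
  have hu : IsUnit (T x ∘ₗ M) := (LinearMap.isUnit_iff_isUnit_det _).2 (isUnit_iff_ne_zero.2 hx)
  have hsurj : Function.Surjective (T x ∘ₗ M) := ((Module.End.isUnit_iff _).1 hu).2
  intro z
  obtain ⟨w, hw⟩ := hsurj z
  exact ⟨M w, hw⟩

end Pool.Agent.CutLoci.H92
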